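import Pool.Agent.Y305.WN.Stm

/-!
# Measures of weak noncompactness under an embedding with a left inverse
-/

set_option autoImplicit false

open Filter Topology Set
open scoped ENNReal NNReal
open Pool.Agent.H86R3 Pool.Agent.H86R3.Wnc

namespace Pool.Agent.Y534.WN

universe u v

theorem lip {α : Type u} {β : Type v} [PseudoEMetricSpace α] [PseudoEMetricSpace β] {K : ℝ≥0}
    {f : α → β} (hf : LipschitzWith K f) (x : α) {s : Set α} (hs : s.Nonempty) :
    Metric.infEDist (f x) (f '' s) ≤ (K : ℝ≥0∞) * Metric.infEDist x s := by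
  by_cases hK : K = 0
  · obtain ⟨y, hy⟩ := hs
    refine (Metric.infEDist_le_edist_of_mem (mem_image_of_mem f hy)).trans ((hf x y).trans ?_)
    rw [hK]
    simp
  · have h0 : (K : ℝ≥0∞) ≠ 0 := by simpa using hK
    unfold Metric.infEDist
    rw [ENNReal.mul_iInf_of_ne h0 ENNReal.coe_ne_top]
    refine le_iInf fun y => ?_
    rw [ENNReal.mul_iInf_of_ne h0 ENNReal.coe_ne_top]
    refine le_iInf fun hy => ?_
    exact (iInf₂_le (f y) (mem_image_of_mem f hy)).trans (hf x y)

section

variable {E : Type u} {X : Type v} [NormedAddCommGroup E] [NormedSpace ℂ E]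
  [NormedAddCommGroup X] [NormedSpace ℂ X]

/-- The adjoint. -/
noncomputable def adj (T : E →L[ℂ] X) : StrongDual ℂ X →L[ℂ] StrongDual ℂ E :=
  (ContinuousLinearMap.compL ℂ E X ℂ).flip T

theorem adj_apply (T : E →L[ℂ] X) (φ : StrongDual ℂ X) (g : E) : adj T φ g = φ (T g) := rfl

theorem norm_adj (T : E →L[ℂ] X) : ‖adj T‖ ≤ ‖T‖ := by
  refine ContinuousLinearMap.opNorm_le_bound _ (norm_nonneg _) fun φ => ?_
  have h : adj T φ = ContinuousLinearMap.comp φ T := rfl
  rw [h, mul_comm]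
  exact ContinuousLinearMap.opNorm_comp_le _ _

theorem adj_lip (T : E →L[ℂ] X) : LipschitzWith ‖T‖₊ (adj (adj T)) := by
  have h : ‖adj (adj T)‖₊ ≤ ‖T‖₊ := (norm_adj (adj T)).trans (norm_adj T)
  exact (adj (adj T)).lipschitz.weaken h

theorem adj_canon (T : E →L[ℂ] X) (g : E) : adj (adj T) (canon E g) = canon X (T g) := by
  ext φ
  rfl

theorem closure_sub (T : E →L[ℂ] X) {A : Set E} (hA : Bornology.IsBounded A) :
    bidualClosure (T '' A) ⊆ adj (adj T) '' bidualClosure A := by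
  obtain ⟨r, hr⟩ := hA.exists_norm_le
  have hcomp := WeakDual.isCompact_closedBall (𝕜 := ℂ) (E := StrongDual ℂ E)
    (0 : StrongDual ℂ (StrongDual ℂ E)) r
  obtain ⟨K, hK⟩ : ∃ K : Set (WeakDual ℂ (StrongDual ℂ E)),
    K = closure ((fun a => StrongDual.toWeakDual (canon E a)) '' A) := ⟨_, rfl⟩
  have hKc : IsCompact K := by
    rw [hK]
    refine hcomp.of_isClosed_subset isClosed_closure (closure_minimal ?_ hcomp.isClosed)
    rintro _ ⟨a, ha, rfl⟩
    have h1 : ‖canon E a‖ ≤ r := (norm_canon_le a).trans (hr _ ha)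
    have h2 : canon E a ∈ Metric.closedBall (0 : StrongDual ℂ (StrongDual ℂ E)) r := by
      rw [Metric.mem_closedBall]
      exact (dist_zero_right (canon E a)).trans_le h1
    exact h2
  obtain ⟨S, hS⟩ : ∃ S : WeakDual ℂ (StrongDual ℂ E) → WeakDual ℂ (StrongDual ℂ X),
    S = fun w => StrongDual.toWeakDual (adj (adj T) (WeakDual.toStrongDual w)) := ⟨_, rfl⟩
  have hSc : Continuous S := by
    refine WeakDual.continuous_of_continuous_eval fun φ => ?_
    have h : (fun w => S w φ) = fun w : WeakDual ℂ (StrongDual ℂ E) => w (adj T φ) := by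
      funext w
      rw [hS]
      rfl
    rw [h]
    exact WeakDual.eval_continuous (adj T φ)
  have hsub : closure ((fun a => StrongDual.toWeakDual (canon X a)) '' (T '' A)) ⊆ S '' K := by
    refine closure_minimal ?_ (hKc.image hSc).isClosed
    rintro _ ⟨_, ⟨a, ha, rfl⟩, rfl⟩
    refine ⟨StrongDual.toWeakDual (canon E a), ?_, ?_⟩
    · rw [hK]
      exact subset_closure ⟨a, ha, rfl⟩
    · rw [hS]
      show StrongDual.toWeakDual (adj (adj T) (canon E a)) = _
      rw [adj_canon]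
  intro z hz
  obtain ⟨w, hw, hwz⟩ := hsub hz
  refine ⟨WeakDual.toStrongDual w, ?_, ?_⟩
  · show w ∈ closure _
    rw [← hK]
    exact hw
  · rw [hS] at hwz
    exact StrongDual.toWeakDual.injective hwz

theorem wk_image (T : E →L[ℂ] X) {A : Set E} (hA : Bornology.IsBounded A) :
    wk (T '' A) ≤ (‖T‖₊ : ℝ≥0∞) * wk A := by
  unfold wk
  rw [excess_le_iff]
  intro z hz
  obtain ⟨w, hw, rfl⟩ := closure_sub T hA hz
  calc Metric.infEDist (adj (adj T) w) (Set.range (canon X))
      ≤ Metric.infEDist (adj (adj T) w) (adj (adj T) '' Set.range (canon E)) := by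
        refine Metric.infEDist_anti ?_
        rintro _ ⟨_, ⟨g, rfl⟩, rfl⟩
        exact ⟨T g, (adj_canon T g).symm⟩
    _ ≤ (‖T‖₊ : ℝ≥0∞) * Metric.infEDist w (Set.range (canon E)) :=
        lip (adj_lip T) w (Set.range_nonempty _)
    _ ≤ (‖T‖₊ : ℝ≥0∞) * excess (bidualClosure A) (Set.range (canon E)) := by
        gcongr
        exact (excess_le_iff _ _ _).1 le_rfl w hw

theorem weak_image (P : X →L[ℂ] E) {L : Set X} (hL : IsWeaklyCompact L) :
    IsWeaklyCompact (P '' L) := by
  have h := IsCompact.image hL (WeakSpace.map P).continuous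
  have e : (WeakSpace.map P) '' (toWeakSpace ℂ X '' L) = toWeakSpace ℂ E '' (P '' L) := by
    rw [image_image, image_image]
    rfl
  rw [e] at h
  exact h

theorem deBlasi_le (T : E →L[ℂ] X) (P : X →L[ℂ] E) (hPT : ∀ g, P (T g) = g) (A : Set E) :
    deBlasi A ≤ (‖P‖₊ : ℝ≥0∞) * deBlasi (T '' A) := by
  have hL : ∀ L : Set X, L.Nonempty → IsWeaklyCompact L →
      deBlasi A ≤ (‖P‖₊ : ℝ≥0∞) * excess (T '' A) L := by
    intro L hL1 hL2
    have hd : deBlasi A ≤ excess A (P '' L) := by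
      unfold deBlasi
      exact iInf_le_of_le (P '' L) (iInf_le_of_le (hL1.image P) (iInf_le_of_le
        (weak_image P hL2) le_rfl))
    refine hd.trans ?_
    rw [excess_le_iff]
    intro a ha
    calc Metric.infEDist a (P '' L) = Metric.infEDist (P (T a)) (P '' L) := by rw [hPT]
      _ ≤ (‖P‖₊ : ℝ≥0∞) * Metric.infEDist (T a) L := lip P.lipschitz (T a) hL1
      _ ≤ (‖P‖₊ : ℝ≥0∞) * excess (T '' A) L := by
          gcongr
          exact (excess_le_iff _ _ _).1 le_rfl (T a) ⟨a, ha, rfl⟩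
  by_cases hP : ‖P‖₊ = 0
  · have h := hL {0} (singleton_nonempty 0) (by
      unfold IsWeaklyCompact
      rw [image_singleton]
      exact isCompact_singleton)
    rw [hP] at h ⊢
    simpa using h
  · have h0 : (‖P‖₊ : ℝ≥0∞) ≠ 0 := by
      rw [Ne, ENNReal.coe_eq_zero]
      exact hP
    conv_rhs => unfold deBlasi
    rw [ENNReal.mul_iInf_of_ne h0 ENNReal.coe_ne_top]
    refine le_iInf fun L => ?_
    rw [ENNReal.mul_iInf_of_ne h0 ENNReal.coe_ne_top]
    refine le_iInf fun h1 => ?_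
    rw [ENNReal.mul_iInf_of_ne h0 ENNReal.coe_ne_top]
    exact le_iInf fun h2 => hL L h1 h2

end

theorem tr : Pool.Agent.Y305.WN.S_TR.{u} := by
  intro E X _ _ _ _ T P hPT A hA
  exact ⟨wk_image T hA, deBlasi_le T P hPT A⟩

end Pool.Agent.Y534.WN
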